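import Pool.Agent.Lib.MP_781e3b_co.RR.Final
import Pool.Agent.Lib.MP_781e3b_co.RR.Iso

namespace Pool.Agent.Variants.MP_781e3b_co.Blocks

open Pool.Agent.Lib.MP_781e3b_co

/-- Let `H₁`, `H₂` be Ramsey equivalent in two colours and let `S` be a set of at least three
vertices of `H₁` that induces a 2-connected graph. Then `H₂` contains a copy of `H₁[S]`; if `S`
contains all non-isolated vertices of `H₁`, the two graphs are Ramsey equivalent in `q` colours for
every `q ≥ 2`. -/
theorem result (a b : ℕ) (H₁ : SimpleGraph (Fin a)) (H₂ : SimpleGraph (Fin b))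
    (h : RamseyEquiv H₁ H₂ 2) (S : Set (Fin a)) (hS : 3 ≤ S.ncard)
    (h2 : ∀ v : S, ((H₁.induce S).induce {v}ᶜ).Connected) :
    (H₁.induce S).IsContained H₂ ∧
      (H₁.support ⊆ S → ∀ q, 2 ≤ q → RamseyEquiv H₁ H₂ q) := by
  classical
  have e := RR.block_emb H₁ H₂ (H₁.induce S) (by rwa [← Nat.card_eq_fintype_card, Nat.card_coe_set_eq])
    h2 ⟨Subtype.val, Subtype.val_injective, fun _ _ huv => huv⟩ h
  refine ⟨?_, fun hs q hq => equiv_of_support Subtype.val_injective (by simpa using hs) e h hq⟩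
  obtain ⟨f, f1, f2⟩ := e
  exact ⟨⟨⟨f, fun {u v} => f2 u v⟩, f1⟩⟩

end Pool.Agent.Variants.MP_781e3b_co.Blocks
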