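import Pool.Agent.Lib.MP_781e3b_co.CN.Main
import Pool.Agent.Lib.MP_781e3b_co.CN.Core

namespace Pool.Agent.Variants.MP_781e3b_co.Connected

open Pool.Agent.Lib.MP_781e3b_co

/-- Let `H₁`, `H₂` be Ramsey equivalent in two colours, and let the non-isolated vertices of `H₁`
induce a connected graph (or let there be none). Then `H₂` contains a copy of that graph and the two
graphs are Ramsey equivalent in `q` colours for every `q ≥ 2`. -/
theorem result (a b : ℕ) (H₁ : SimpleGraph (Fin a)) (H₂ : SimpleGraph (Fin b))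
    (h : RamseyEquiv H₁ H₂ 2) (hc : (H₁.induce H₁.support).Preconnected) :
    (H₁.induce H₁.support).IsContained H₂ ∧ ∀ q, 2 ≤ q → RamseyEquiv H₁ H₂ q := by
  classical
  have e : Emb (H₁.induce H₁.support) H₂.Adj := by
    rcases isEmpty_or_nonempty H₁.support with he | he
    · exact ⟨he.elim, fun u => he.elim u, fun u => he.elim u⟩
    obtain ⟨m, j, j1, j2⟩ := CN.exists_core H₁
    obtain ⟨n, k, k1, k2⟩ := CN.exists_core H₂
    have j3 : ∀ v : H₁.support, ∃ x, j x = v := fun v => j2.ge v.2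
    choose g hg using j3
    have g1 : Function.Injective g := fun u v huv => Subtype.ext (by rw [← hg, ← hg, huv])
    have g2 : ∀ u v, (H₁.induce H₁.support).Adj u v → (H₁.comap j).Adj (g u) (g v) :=
      fun u v huv => by rwa [SimpleGraph.comap_adj, hg, hg]
    have g3 : Function.Surjective g := fun x =>
      ⟨⟨j x, j2.le (Set.mem_range_self x)⟩, j1 (hg _)⟩
    have hc' : (H₁.comap j).Connected :=
      (SimpleGraph.Connected.mk hc).map ⟨g, fun {u v} => g2 u v⟩ g3
    exact Emb.trans ⟨g, g1, g2⟩ ((CN.conn_emb hc' (CN.core_equiv h j1 j2 k1 k2)).trans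
      ⟨k, k1, fun _ _ huv => huv⟩)
  refine ⟨?_, fun q hq => equiv_of_support Subtype.val_injective (by simp) e h hq⟩
  obtain ⟨f, f1, f2⟩ := e
  exact ⟨⟨⟨f, fun {u v} => f2 u v⟩, f1⟩⟩

end Pool.Agent.Variants.MP_781e3b_co.Connected
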