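import Pool.Agent.Lib.MP_781e3b_co.H92Mat

namespace Pool.Agent.Variants.MP_781e3b_co.MatchingQuotient

open Pool.Agent.Lib.MP_781e3b_co

/-- Let `C` be a class of finite graphs in which any two members can be glued along any two oriented
edges, up to homomorphisms into a member. Let `H₁` be connected with at least three vertices and no
homomorphism to a member of `C`, and let `p` send each edge of `H₁` to an edge or to a vertex of a
member `Q` of `C`, so that the edges sent to a vertex form an induced matching. Then every graph `H₂`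
that is Ramsey equivalent to `H₁` in two colours contains `H₁` and is Ramsey equivalent to it in `q`
colours for every `q ≥ 2`. -/
theorem result (a b m : ℕ) (H₁ : SimpleGraph (Fin a)) (H₂ : SimpleGraph (Fin b))
    (C : ∀ n : ℕ, SimpleGraph (Fin n) → Prop)
    (hC : ∀ (n₁ n₂ : ℕ) (G₁ : SimpleGraph (Fin n₁)) (G₂ : SimpleGraph (Fin n₂)),
      C n₁ G₁ → C n₂ G₂ → ∀ x₁ y₁ x₂ y₂, G₁.Adj x₁ y₁ → G₂.Adj x₂ y₂ →
        ∃ (n : ℕ) (G : SimpleGraph (Fin n)) (f₁ : G₁ →g G) (f₂ : G₂ →g G),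
          C n G ∧ f₁ x₁ = f₂ x₂ ∧ f₁ y₁ = f₂ y₂)
    (ha : 3 ≤ a) (hc : H₁.Connected)
    (hn : ∀ (n : ℕ) (G : SimpleGraph (Fin n)), C n G → IsEmpty (H₁ →g G))
    (Q : SimpleGraph (Fin m)) (hQ : C m Q) (p : Fin a → Fin m)
    (hp : ∀ u v, H₁.Adj u v → p u = p v ∨ Q.Adj (p u) (p v))
    (hm : ∀ u v u' v', H₁.Adj u v → p u = p v → H₁.Adj u' v' → p u' = p v' → H₁.Adj u u' → u' = v)
    (h : RamseyEquiv H₁ H₂ 2) :
    H₁.IsContained H₂ ∧ ∀ q, 2 ≤ q → RamseyEquiv H₁ H₂ q :=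
  have e := H92.mat_main hC (by simpa using ha) hc hQ ⟨hp, hm⟩ hn h
  ⟨H92.contained_of_emb e, fun _ hq => equiv_of_emb e h hq⟩

end Pool.Agent.Variants.MP_781e3b_co.MatchingQuotient
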