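import Pool.Agent.Lib.MP_781e3b_co.Main

namespace Pool.Agent.Variants.MP_781e3b_co.StarForest

open Pool.Agent.Lib.MP_781e3b_co

/-- If `H₁` is a star forest (isolated vertices allowed) and `H₂` is any graph that is Ramsey
equivalent to `H₁` in two colours, then one of the two graphs is a subgraph of the other, and
they are Ramsey equivalent in `q` colours for every `q ≥ 2`. -/
theorem result (a b : ℕ) (H₁ : SimpleGraph (Fin a)) (H₂ : SimpleGraph (Fin b))
    (hs : IsStarForest H₁) (h : RamseyEquiv H₁ H₂ 2) :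
    ((∃ f : Fin a → Fin b, Function.Injective f ∧ ∀ u v, H₁.Adj u v → H₂.Adj (f u) (f v)) ∨
      ∃ g : Fin b → Fin a, Function.Injective g ∧ ∀ u v, H₂.Adj u v → H₁.Adj (g u) (g v)) ∧
    ∀ q, 2 ≤ q → RamseyEquiv H₁ H₂ q :=
  main hs h

end Pool.Agent.Variants.MP_781e3b_co.StarForest
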