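import Pool.Agent.Lib.MP_781e3b_co.TMain

namespace Pool.Agent.Variants.MP_781e3b_co.Tree

open Pool.Agent.Lib.MP_781e3b_co

/-- If `H₁` is a tree and `H₂` is any graph that is Ramsey equivalent to `H₁` in two colours, then
`H₂` is a copy of `H₁` together with isolated vertices, and the two graphs are Ramsey equivalent
in `q` colours for every `q ≥ 2`. -/
theorem result (a b : ℕ) (H₁ : SimpleGraph (Fin a)) (H₂ : SimpleGraph (Fin b))
    (hT : H₁.IsTree) (h : RamseyEquiv H₁ H₂ 2) :
    (∃ f : Fin a ↪ Fin b, H₂ = H₁.map f) ∧ ∀ q, 2 ≤ q → RamseyEquiv H₁ H₂ q := by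
  convert tree_main hT h

end Pool.Agent.Variants.MP_781e3b_co.Tree
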